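import Pool.Agent.Sheet.Final

/-!
MP_e5cfa3_pr, Q1: the order of growth of the small ball exponent of the `d`-parameter Brownian
sheet is `ε⁻² (log 1/ε)^(2d-1)`, for every `d ≥ 2`.
-/

open MeasureTheory

namespace Pool.Agent.Results.MP_e5cfa3_pr.SmallBall

universe u

/-- For every `d ≥ 2` a Brownian sheet on `[0,1]^d` exists, and there are constants `c, C > 0`
(depending only on `d`) such that for every Brownian sheet `B` and every `0 < ε < 1/2` the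
probability of `sup |B| ≤ ε` is well defined and positive, and
`c ε⁻² (log 1/ε)^(2d-1) ≤ -log P(sup |B| ≤ ε) ≤ C ε⁻² (log 1/ε)^(2d-1)`. -/
theorem result (d : ℕ) (hd : 2 ≤ d) :
    (∃ (Ω : Type) (_ : MeasurableSpace Ω) (P : Measure Ω) (B : (Fin d → unitInterval) → Ω → ℝ),
      Sheet.IsBrownianSheet B P) ∧
    ∃ c C : ℝ, 0 < c ∧ 0 < C ∧
      ∀ (Ω : Type u) [MeasurableSpace Ω] (P : Measure Ω) (B : (Fin d → unitInterval) → Ω → ℝ),
        Sheet.IsBrownianSheet B P → ∀ ε : ℝ, 0 < ε → ε < 1 / 2 →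
          NullMeasurableSet {ω | ∀ x, |B x ω| ≤ ε} P ∧
          0 < P.real {ω | ∀ x, |B x ω| ≤ ε} ∧
          c * (ε⁻¹ ^ 2 * Real.log ε⁻¹ ^ (2 * d - 1))
            ≤ -Real.log (P.real {ω | ∀ x, |B x ω| ≤ ε}) ∧
          -Real.log (P.real {ω | ∀ x, |B x ω| ≤ ε})
            ≤ C * (ε⁻¹ ^ 2 * Real.log ε⁻¹ ^ (2 * d - 1)) := by
  refine ⟨Sheet.stmtExist d, ?_⟩
  obtain ⟨c, hc, hlow⟩ := Sheet.lowerThm.{u} d hd
  obtain ⟨C, hC, hupp⟩ := Sheet.upperThm.{u} d (by omega)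
  refine ⟨c, C, hc, hC, ?_⟩
  intro Ω _ P B hB ε hε0 hε1
  have h1 := hlow Ω P B hB ε hε0 hε1
  have h2 := hupp Ω P B hB ε hε0 hε1
  have hpos : 0 < P.real {ω | ∀ x, |B x ω| ≤ ε} := lt_of_lt_of_le (Real.exp_pos _) h2
  refine ⟨Sheet.nullMeasurable_event hB ε, hpos, ?_, ?_⟩
  · have h3 := Real.log_le_log hpos h1
    rw [Real.log_exp] at h3
    linarith
  · have h3 := Real.log_le_log (Real.exp_pos _) h2
    rw [Real.log_exp] at h3
    linarith

end Pool.Agent.Results.MP_e5cfa3_pr.SmallBall
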